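import Pool.Agent.H8.PDDProof

set_option autoImplicit false

namespace Pool.Agent.Results.MP_8766ea_co.Incomplete

open Pool.Agent.H8.PDD

/-- Two non-isometric planar clouds of 10 points with the same pointwise distance distribution. -/
theorem result : ∃ C C' : Finset (EuclideanSpace ℝ (Fin 2)), C.card = 10 ∧ C'.card = 10 ∧
    pdd C = pdd C' ∧
    ¬ ∃ f : EuclideanSpace ℝ (Fin 2) → EuclideanSpace ℝ (Fin 2), Isometry f ∧ f '' C = C' :=
  main

end Pool.Agent.Results.MP_8766ea_co.Incomplete
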